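import Mathlib

/-!
Definitions for the reflection theorem on rectangle-measurable sets.
-/

namespace Pool.RVM

/-- `E` lies in the sigma-algebra on `α × β` generated by all rectangles `A × B`, with `A` an
arbitrary subset of `α` and `B` an arbitrary subset of `β`. -/
def RectMeas {α β : Type} (E : Set (α × β)) : Prop :=
  @MeasurableSet (α × β)
    (MeasurableSpace.generateFrom {R : Set (α × β) | ∃ A B, R = A ×ˢ B}) E

/-- The continuum is real-valued measurable: there is a probability measure defined on all sets of
reals, vanishing at points, for which every union of fewer than continuum many null sets is null.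
This is the hypothesis of the frozen statement, word for word. -/
def RVMContinuum : Prop :=
  ∃ m : Set ℝ → ℝ, (∀ s, 0 ≤ m s) ∧ m Set.univ = 1 ∧ (∀ x : ℝ, m {x} = 0) ∧
      (∀ f : ℕ → Set ℝ, Pairwise (Function.onFun Disjoint f) →
        HasSum (fun n => m (f n)) (m (⋃ n, f n))) ∧
      (∀ S : Set (Set ℝ), Cardinal.mk ↥S < Cardinal.continuum →
        (∀ s ∈ S, m s = 0) → m (⋃₀ S) = 0)

end Pool.RVM
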