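import Pool.Agent.RVM.Main
import Pool.Agent.RVM.Defs

/-!
The reflection theorem when the continuum is real-valued measurable.
-/

open MeasureTheory Set Filter Ordinal Cardinal

namespace Pool.RVM

open BC

theorem rectMeas_preimage {α β γ δ : Type} {E : Set (α × β)} (hE : RectMeas E)
    (f : γ → α) (g : δ → β) : RectMeas {p : γ × δ | (f p.1, g p.2) ∈ E} := by
  let m : MeasurableSpace (α × β) :=
    MeasurableSpace.generateFrom {R : Set (α × β) | ∃ A B, R = A ×ˢ B}
  let m' : MeasurableSpace (γ × δ) :=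
    MeasurableSpace.generateFrom {R : Set (γ × δ) | ∃ A B, R = A ×ˢ B}
  have h : @Measurable _ _ m' m (fun p : γ × δ => (f p.1, g p.2)) := by
    refine measurable_generateFrom ?_
    rintro _ ⟨A, B, rfl⟩
    exact MeasurableSpace.measurableSet_generateFrom ⟨f ⁻¹' A, g ⁻¹' B, rfl⟩
  exact h hE

theorem rectMeas_iff {α β : Type} [MeasurableSpace α] [DiscreteMeasurableSpace α]
    [MeasurableSpace β] [DiscreteMeasurableSpace β] (E : Set (α × β)) :
    RectMeas E ↔ MeasurableSet E := by
  have : (MeasurableSpace.generateFrom {R : Set (α × β) | ∃ A B, R = A ×ˢ B}) =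
      Prod.instMeasurableSpace := by
    rw [← generateFrom_prod]
    congr 1
    ext R
    constructor
    · rintro ⟨A, B, rfl⟩
      exact ⟨A, MeasurableSet.of_discrete, B, MeasurableSet.of_discrete, rfl⟩
    · rintro ⟨A, _, B, _, rfl⟩
      exact ⟨A, B, rfl⟩
  rw [RectMeas, this]

/-- A copy of the reals, carrying the sigma-algebra of all subsets. -/
structure RD : Type where
  /-- The underlying real. -/
  val : ℝ

/-- The underlying real of a point. -/
def RD.equiv : RD ≃ ℝ := ⟨RD.val, RD.mk, fun _ => rfl, fun _ => rfl⟩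

instance : MeasurableSpace RD := ⊤

instance : DiscreteMeasurableSpace RD := ⟨fun _ => trivial⟩

theorem mk_RD : Cardinal.mk RD = continuum := by
  rw [Cardinal.mk_congr RD.equiv]; exact Cardinal.mk_real

/-- The measure on all sets of reals. -/
theorem exists_measure (h : RVMContinuum) : ∃ μ : Measure RD, IsProbabilityMeasure μ ∧
    (∀ x : RD, μ {x} = 0) ∧ (∀ S : Set (Set RD), Cardinal.mk ↥S < Cardinal.continuum →
        (∀ s ∈ S, μ s = 0) → μ (⋃₀ S) = 0) := by
  obtain ⟨m, hnn, huniv, hpt, hsum, hadd⟩ := h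
  have hempty : m ∅ = 0 := by
    have h1 := hsum (fun _ => ∅) (fun i j _ => by simp [Function.onFun])
    have h2 : Summable (fun _ : ℕ => m ∅) := h1.summable
    exact (summable_const_iff _).1 h2
  let q : Set RD → Set ℝ := fun s => RD.mk ⁻¹' s
  let μ : Measure RD := Measure.ofMeasurable (fun s _ => ENNReal.ofReal (m (q s)))
    (by 
      have : q ∅ = ∅ := rfl
      rw [this, hempty, ENNReal.ofReal_zero]) (by
      intro f _ hf
      have h1 := hsum (fun n => q (f n)) (fun i j hij => (hf hij).preimage _)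
      have h2 : q (⋃ i, f i) = ⋃ i, q (f i) := Set.preimage_iUnion
      rw [h2, ← h1.tsum_eq, ENNReal.ofReal_tsum_of_nonneg (fun n => hnn _) h1.summable])
  have hμ : ∀ s : Set RD, μ s = ENNReal.ofReal (m (q s)) := fun s =>
    Measure.ofMeasurable_apply s MeasurableSet.of_discrete
  have h0 : ∀ s : Set RD, μ s = 0 ↔ m (q s) = 0 := by
    intro s
    rw [hμ, ENNReal.ofReal_eq_zero]
    exact ⟨fun h => le_antisymm h (hnn _), fun h => h.le⟩
  refine ⟨μ, ⟨by rw [hμ, show q Set.univ = Set.univ from rfl, huniv, ENNReal.ofReal_one]⟩,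
    fun x => (h0 _).2 ?_, ?_⟩
  · have : q {x} = {x.val} := by
      ext y
      simp only [q, Set.mem_preimage, Set.mem_singleton_iff]
      constructor
      · intro h; rw [← h]
      · intro h; rw [h]
    rw [this]; exact hpt _
  · intro S hS hz
    refine (h0 _).2 ?_
    have : q (⋃₀ S) = ⋃₀ (q '' S) := by
      ext y
      simp [q]
    rw [this]
    refine hadd _ (lt_of_le_of_lt Cardinal.mk_image_le hS) ?_
    rintro _ ⟨s, hs, rfl⟩
    exact (h0 s).1 (hz s hs)

/-- Small sets are null. -/
theorem null_of_small {μ : Measure RD} (hpt : ∀ x : RD, μ {x} = 0)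
    (hadd : ∀ S : Set (Set RD), Cardinal.mk ↥S < Cardinal.continuum →
        (∀ s ∈ S, μ s = 0) → μ (⋃₀ S) = 0) (Z : Set RD) (hZ : Cardinal.mk Z < continuum) :
    μ Z = 0 := by
  have h1 : Z = ⋃₀ ((fun x : RD => ({x} : Set RD)) '' Z) := by
    ext x
    simp
  rw [h1]
  refine hadd _ (lt_of_le_of_lt Cardinal.mk_image_le hZ) ?_
  rintro _ ⟨x, _, rfl⟩
  exact hpt x

theorem mk_seg_lt (r : RD → RD → Prop) [IsWellOrder RD r]
    (hr : Cardinal.ord (Cardinal.mk RD) = Ordinal.type r) (y : RD) :
    Cardinal.mk {x : RD | r x y} < continuum := by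
  have h1 := card_typein_lt y hr
  rw [mk_RD, Ordinal.card_typein] at h1
  exact h1

/-- Under the hypothesis the continuum is bigger than `ℵ₁`. -/
theorem aleph_one_lt {μ : Measure RD} [IsProbabilityMeasure μ] (hpt : ∀ x : RD, μ {x} = 0)
    (r : RD → RD → Prop) [IsWellOrder RD r] (hr : Cardinal.ord (Cardinal.mk RD) = Ordinal.type r) :
    (ℵ₁ : Cardinal.{0}) < continuum := by
  by_contra hc
  rw [not_lt] at hc
  have hcount : ∀ Z : Set RD, Z.Countable → μ Z = 0 := by
    intro Z hZ
    have h1 : Z = ⋃ x ∈ Z, ({x} : Set RD) := by simp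
    rw [h1]
    exact (measure_biUnion_null_iff hZ).2 fun x _ => hpt x
  have hseg : ∀ y : RD, ({x : RD | r x y} : Set RD).Countable := by
    intro y
    have h3 := (mk_seg_lt r hr y).trans_le hc
    exact Cardinal.le_aleph0_iff_set_countable.1 ((Cardinal.lt_aleph_one_iff).1 h3)
  have hseg2 : ∀ y : RD, ({x : RD | ¬ r y x} : Set RD).Countable := by
    intro y
    refine ((hseg y).union (Set.countable_singleton y)).mono ?_
    intro x hx
    rcases trichotomous_of r x y with h | h | h
    · exact Or.inl h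
    · exact Or.inr h
    · exact (hx h).elim
  have hne : ∀ y : RD, ({x : RD | ¬ r y x} : Set RD).Nonempty :=
    fun y => ⟨y, irrefl_of r y⟩
  have hg : ∀ y : RD, ∃ g : ℕ → RD, {x : RD | ¬ r y x} = Set.range g :=
    fun y => (hseg2 y).exists_eq_range (hne y)
  choose g hg using hg
  let D : Set (RD × RD) := {p | ¬ r p.2 p.1}
  have hD : MeasurableSet D := by
    have : D = ⋃ n : ℕ, {p : RD × RD | p.1 = g p.2 n} := by
      ext ⟨x, y⟩
      have h1 : x ∈ {x : RD | ¬ r y x} ↔ x ∈ Set.range (g y) := by rw [hg y]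
      simp only [D, Set.mem_iUnion, Set.mem_ofPred_eq]
      constructor
      · intro h
        obtain ⟨n, hn⟩ := h1.1 h
        exact ⟨n, hn.symm⟩
      · rintro ⟨n, hn⟩
        exact h1.2 ⟨n, hn.symm⟩
    rw [this]
    refine MeasurableSet.iUnion fun n => ?_
    exact measurableSet_eq_of_discrete (β := RD) RD.equiv RD.equiv.injective
      (fun x : RD => x) (fun y : RD => g y n)
  have h1 := Measure.prod_apply (μ := μ) (ν := μ) hD
  have h2 := Measure.prod_apply_symm (μ := μ) (ν := μ) hD
  have h3 : ∀ y : RD, μ ((fun x => (x, y)) ⁻¹' D) = 0 := fun y => hcount _ (hseg2 y)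
  have h4 : ∀ x : RD, μ (Prod.mk x ⁻¹' D) = 1 := by
    intro x
    have h5 : Prod.mk x ⁻¹' D = {y : RD | r y x}ᶜ := rfl
    rw [h5, prob_compl_eq_one_sub MeasurableSet.of_discrete, hcount _ (hseg x)]
    simp
  rw [h2] at h1
  simp only [h3, h4, lintegral_const, measure_univ] at h1
  simp at h1

theorem reflection (h : RVMContinuum) (W : Set (unitInterval × unitInterval))
    (hW : ∀ X : Set unitInterval, Cardinal.mk X < continuum →
      RectMeas {p : X × X | ((p.1 : unitInterval), (p.2 : unitInterval)) ∈ W}) :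
    RectMeas W := by
  classical
  obtain ⟨μ, hμ, hpt, hadd⟩ := exists_measure h
  obtain ⟨r, hwo, hr⟩ := Cardinal.exists_ord_eq RD
  have hc1 : (ℵ₁ : Cardinal.{0}) < continuum := aleph_one_lt hpt r hr
  have hseg := mk_seg_lt r hr
  let X : RD → Set unitInterval := fun t => {x | r (RD.mk (x : ℝ)) t}
  have hX : ∀ t, Cardinal.mk (X t) < continuum := by
    intro t
    refine lt_of_le_of_lt ?_ (hseg t)
    refine Cardinal.mk_le_of_injective (f := fun x : X t => (⟨RD.mk ((x : unitInterval) : ℝ), x.2⟩ :
      {x : RD | r x t})) ?_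
    intro x y hxy
    have h1 : RD.mk ((x : unitInterval) : ℝ) = RD.mk ((y : unitInterval) : ℝ) :=
      congrArg Subtype.val hxy
    exact Subtype.ext (Subtype.ext (RD.mk.inj h1))
  have hcode := fun t => exists_code (hW (X t) (hX t))
  choose A B c hABc using hcode
  let mI : MeasurableSpace unitInterval := ⊤
  have dI : @DiscreteMeasurableSpace unitInterval mI := @DiscreteMeasurableSpace.mk _ mI fun _ => trivial
  have hnull : ∀ x : unitInterval, ∀ᵐ t ∂μ, x ∈ X t := by
    intro x
    have h1 : μ {t : RD | ¬ r (RD.mk (x : ℝ)) t} = 0 := by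
      refine null_of_small hpt hadd _ ?_
      have h2 : {t : RD | ¬ r (RD.mk (x : ℝ)) t} ⊆ {t : RD | r t (RD.mk (x : ℝ))} ∪ {(RD.mk (x : ℝ))} := by
        intro t ht
        rcases trichotomous_of r t (RD.mk (x : ℝ)) with h | h | h
        · exact Or.inl h
        · exact Or.inr h
        · exact (ht h).elim
      refine lt_of_le_of_lt (Cardinal.mk_le_mk_of_subset h2) ?_
      refine lt_of_le_of_lt (Cardinal.mk_union_le _ _) ?_
      refine Cardinal.add_lt_of_lt Cardinal.aleph0_le_continuum (hseg _) ?_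
      rw [Cardinal.mk_singleton]
      exact Cardinal.one_lt_aleph0.trans Cardinal.aleph0_lt_continuum
    exact h1
  have key := @measurableSet_of_ae_codes RD _ _ unitInterval unitInterval mI dI mI dI μ hμ
    (by
      intro S hS
      have h1 : (⋃ i, S i) = ⋃₀ (Set.range S) := by rw [Set.sUnion_range]
      rw [h1]
      refine hadd _ ?_ ?_
      · refine lt_of_le_of_lt ?_ hc1
        have h2 := Cardinal.mk_range_le_lift (f := S)
        have h3 : Cardinal.mk (Set.Iio (ω₁ : Ordinal.{0})) = Cardinal.lift.{1} (ω₁ : Ordinal.{0}).card :=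
          Cardinal.mk_Iio_ordinal _
        rw [h3] at h2
        have h4 : (ω₁ : Ordinal.{0}).card = ℵ₁ := by simp
        rw [h4] at h2
        simpa using h2
      · rintro _ ⟨i, rfl⟩
        exact hS i)
    (fun x : unitInterval => (x : ℝ)) Subtype.val_injective W
    (fun t n => Subtype.val '' (A t n)) (fun t n => Subtype.val '' (B t n)) c
    (by
      intro x y
      filter_upwards [hnull x, hnull y] with t hx hy
      have h1 := hABc t ⟨x, hx⟩ ⟨y, hy⟩
      have h2 : ((⟨x, hx⟩ : X t), (⟨y, hy⟩ : X t)) ∈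
          {p : X t × X t | ((p.1 : unitInterval), (p.2 : unitInterval)) ∈ W} ↔ (x, y) ∈ W := Iff.rfl
      rw [← h2, h1]
      have h3 : (fun n => (⟨x, hx⟩ : X t) ∈ A t n ∧ (⟨y, hy⟩ : X t) ∈ B t n) =
          (fun n => x ∈ Subtype.val '' (A t n) ∧ y ∈ Subtype.val '' (B t n)) := by
        funext n
        refine propext (and_congr ?_ ?_)
        · constructor
          · intro h; exact ⟨_, h, rfl⟩
          · rintro ⟨z, hz, hzx⟩
            have : z = ⟨x, hx⟩ := Subtype.ext hzx
            rwa [← this]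
        · constructor
          · intro h; exact ⟨_, h, rfl⟩
          · rintro ⟨z, hz, hzx⟩
            have : z = ⟨y, hy⟩ := Subtype.ext hzx
            rwa [← this]
      rw [h3])
  exact (@rectMeas_iff unitInterval unitInterval mI dI mI dI W).2 key

/-- Universal analytic subset of the unit square. -/
def UniversalAnalytic (U : Set (unitInterval × unitInterval)) : Prop :=
  AnalyticSet U ∧ ∀ A : Set unitInterval, AnalyticSet A → ∃ x : unitInterval, A = {y | (x, y) ∈ U}

theorem universal_iff (h : RVMContinuum) (U : Set (unitInterval × unitInterval))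
    (hU : UniversalAnalytic U) :
    RectMeas U ↔ ∀ (ι : Type), Cardinal.mk ι < continuum → ∀ (A : ι → Set unitInterval),
      (∀ i, AnalyticSet (A i)) → ∀ y : ι → unitInterval,
        RectMeas {p : ι × ι | y p.2 ∈ A p.1} := by
  constructor
  · intro hR ι _ A hA y
    choose g hg using fun i => hU.2 (A i) (hA i)
    have h1 := rectMeas_preimage hR g y
    have h2 : {p : ι × ι | y p.2 ∈ A p.1} = {p : ι × ι | (g p.1, y p.2) ∈ U} := by
      ext p
      simp only [Set.mem_ofPred_eq]
      rw [hg p.1]
      exact Iff.rfl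
    rw [h2]; exact h1
  · intro hR
    refine reflection h U fun X hX => ?_
    refine hR X hX (fun x => {y | ((x : unitInterval), y) ∈ U}) ?_ (fun y => (y : unitInterval))
    intro x
    have : {y | ((x : unitInterval), y) ∈ U} = (fun y => ((x : unitInterval), y)) ⁻¹' U := rfl
    rw [this]
    exact hU.1.preimage (by fun_prop)

end Pool.RVM
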