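import Pool.Agent.RVM.Hilbert

/-!
Borel codes, their ranks, and the measurability of evaluation along families of codes of
bounded countable rank.
-/

open MeasureTheory Set Filter Ordinal

namespace Pool.RVM

/-- Borel codes over countably many generators. -/
inductive BC : Type
  | atom (n : ℕ) : BC
  | node (f : ℕ → BC) : BC

namespace BC

/-- Evaluation: a node is the complement of the union of its successors. -/
def ev : BC → (ℕ → Prop) → Prop
  | atom n, z => z n
  | node f, z => ¬ ∃ n, ev (f n) z

/-- Renaming of generators. -/
def ren (g : ℕ → ℕ) : BC → BC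
  | atom n => atom (g n)
  | node f => node (fun n => ren g (f n))

theorem ev_ren (g : ℕ → ℕ) (c : BC) (z : ℕ → Prop) :
    ev (ren g c) z ↔ ev c (fun n => z (g n)) := by
  induction c with
  | atom n => exact Iff.rfl
  | node f ih =>
    simp only [ren, ev]
    exact not_congr (exists_congr fun n => ih n)

/-- The rank of a code. -/
noncomputable def rk : BC → Ordinal.{0}
  | atom _ => 0
  | node f => ⨆ n, (rk (f n) + 1)

theorem rk_lt_node (f : ℕ → BC) (n : ℕ) : rk (f n) < rk (node f) := by
  have h : rk (f n) + 1 ≤ ⨆ n, (rk (f n) + 1) := Ordinal.le_iSup (fun n => rk (f n) + 1) n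
  have h2 : rk (node f) = ⨆ n, (rk (f n) + 1) := rfl
  rw [h2]
  exact lt_of_lt_of_le (lt_add_one _) h

theorem rk_lt_omega_one (c : BC) : rk c < ω₁ := by
  induction c with
  | atom n =>
    have : rk (atom n) = 0 := rfl
    rw [this]
    exact Ordinal.omega_pos 1
  | node f ih =>
    have h2 : rk (node f) = ⨆ n, (rk (f n) + 1) := rfl
    rw [h2]
    refine Ordinal.iSup_lt_omega_one ?_
    intro n
    have hl : Order.IsSuccLimit (ω₁) := by
      rw [← Cardinal.ord_aleph]
      exact Cardinal.isSuccLimit_ord (Cardinal.aleph0_le_aleph 1)
    exact hl.add_one_lt (ih n)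

end BC

open BC

/-- Every set in the sigma-algebra generated by rectangles is coded by countably many rectangles
and a Borel code. -/
theorem exists_code {α β : Type*} {E : Set (α × β)}
    (hE : @MeasurableSet (α × β)
      (MeasurableSpace.generateFrom {R : Set (α × β) | ∃ A B, R = A ×ˢ B}) E) :
    ∃ (A : ℕ → Set α) (B : ℕ → Set β) (c : BC),
      ∀ x y, (x, y) ∈ E ↔ ev c (fun n => x ∈ A n ∧ y ∈ B n) := by
  classical
  induction E, hE using MeasurableSpace.generateFrom_induction with
  | hC t ht =>
    obtain ⟨A, B, rfl⟩ := ht
    exact ⟨fun _ => A, fun _ => B, atom 0, fun x y => Iff.rfl⟩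
  | empty =>
    refine ⟨fun _ => ∅, fun _ => ∅, atom 0, fun x y => ?_⟩
    constructor
    · intro h; exact h.elim
    · intro h; exact h.1
  | compl t ht ih =>
    obtain ⟨A, B, c, h⟩ := ih
    refine ⟨A, B, node (fun _ => c), fun x y => ?_⟩
    have h' := h x y
    simp only [ev, exists_const]
    constructor
    · intro hx hev; exact hx (h'.2 hev)
    · intro hx hev; exact hx (h'.1 hev)
  | iUnion s hs ih =>
    choose A B c h using ih
    refine ⟨fun k => A k.unpair.1 k.unpair.2, fun k => B k.unpair.1 k.unpair.2,
      node (fun _ => node (fun n => ren (fun m => Nat.pair n m) (c n))), fun x y => ?_⟩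
    simp only [ev, exists_const, not_not, ev_ren, Nat.unpair_pair, Set.mem_iUnion]
    exact exists_congr fun n => h n x y

variable {T : Type*} [MeasurableSpace T] [DiscreteMeasurableSpace T]

/-- Evaluation along a family of codes of bounded countable rank is measurable. -/
theorem measurableSet_ev (β : Ordinal.{0}) (hβ : β < ω₁) : ∀ C : T → BC, (∀ t, rk (C t) < β) →
    MeasurableSet {p : T × (ℕ → Prop) | ev (C p.1) p.2} := by
  classical
  induction β using WellFoundedLT.induction with
  | _ β ih =>
    intro C hC
    have : Countable (Set.Iio β) := by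
      rw [← Cardinal.mk_le_aleph0_iff]
      have h1 : Cardinal.mk (Set.Iio β) = Cardinal.lift β.card := Cardinal.mk_Iio_ordinal β
      rw [h1, Cardinal.lift_le_aleph0, ← Cardinal.lt_aleph_one_iff] 
      exact Cardinal.lt_ord.1 (by simpa using hβ)
    have hdec : {p : T × (ℕ → Prop) | ev (C p.1) p.2} =
        ⋃ γ : Set.Iio β, ({p : T × (ℕ → Prop) | rk (C p.1) = (γ : Ordinal)} ∩
          {p : T × (ℕ → Prop) | ev (C p.1) p.2}) := by
      ext p
      constructor
      · intro hp
        exact Set.mem_iUnion.2 ⟨⟨rk (C p.1), hC p.1⟩, rfl, hp⟩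
      · intro hp
        obtain ⟨γ, _, h⟩ := Set.mem_iUnion.1 hp
        exact h
    rw [hdec]
    refine MeasurableSet.iUnion fun γ => ?_
    have hγ : (γ : Ordinal) < β := γ.2
    -- successors, replaced by an atom outside the piece
    let F : ℕ → T → BC := fun n t => 
      match C t with
      | atom k => atom k
      | node f => if rk (node f) = (γ : Ordinal) then f n else atom 0
    have hpiece : ({p : T × (ℕ → Prop) | rk (C p.1) = (γ : Ordinal)} ∩
          {p : T × (ℕ → Prop) | ev (C p.1) p.2}) =
        ({p : T × (ℕ → Prop) | rk (C p.1) = (γ : Ordinal)} ∩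
          ((⋃ k : ℕ, ({p : T × (ℕ → Prop) | C p.1 = atom k} ∩
            {p : T × (ℕ → Prop) | p.2 k})) ∪
          ({p : T × (ℕ → Prop) | ∃ f, C p.1 = node f} ∩
            (⋃ n : ℕ, {p : T × (ℕ → Prop) | ev (F n p.1) p.2})ᶜ))) := by
      ext ⟨t, z⟩
      simp only [Set.mem_inter_iff, Set.mem_ofPred_eq, Set.mem_union, Set.mem_iUnion,
        Set.mem_compl_iff]
      refine and_congr_right fun hr => ?_
      rcases hCt : C t with k | f
      · simp [ev]
      · have hF : ∀ n, F n t = f n := by
          intro n
          have hr' : rk (node f) = (γ : Ordinal) := by rw [← hCt]; exact hr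
          simp only [F, hCt, hr', if_true]
        simp [hF, ev]
    rw [hpiece]
    have hfst : Measurable (fun p : T × (ℕ → Prop) => p.1) := measurable_fst
    refine MeasurableSet.inter ?_ (MeasurableSet.union ?_ (MeasurableSet.inter ?_ ?_))
    · exact hfst (MeasurableSet.of_discrete (s := {t : T | rk (C t) = (γ : Ordinal)}))
    · refine MeasurableSet.iUnion fun k => MeasurableSet.inter ?_ ?_
      · exact hfst (MeasurableSet.of_discrete (s := {t : T | C t = atom k}))
      · have : Measurable (fun p : T × (ℕ → Prop) => p.2 k) :=
          (measurable_pi_apply k).comp measurable_snd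
        exact measurableSet_setOfPred.2 this
    · exact hfst (MeasurableSet.of_discrete (s := {t : T | ∃ f, C t = node f}))
    · refine MeasurableSet.compl (MeasurableSet.iUnion fun n => ?_)
      rcases eq_or_ne (γ : Ordinal) 0 with h0 | h0
      · -- all codes are atoms on the piece: F n t is an atom for every t
        have hF : ∀ t, ∃ k, F n t = atom k := by
          intro t
          rcases hCt : C t with k | f
          · exact ⟨k, by simp only [F, hCt]⟩
          · refine ⟨0, ?_⟩
            have : rk (node f) ≠ (γ : Ordinal) := by
              rw [h0]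
              exact (lt_of_le_of_lt zero_le (rk_lt_node f 0)).ne'
            simp only [F, hCt, this, if_false]
        have : {p : T × (ℕ → Prop) | ev (F n p.1) p.2} =
            ⋃ k : ℕ, ({p : T × (ℕ → Prop) | F n p.1 = atom k} ∩
              {p : T × (ℕ → Prop) | p.2 k}) := by
          ext ⟨t, z⟩
          simp only [Set.mem_inter_iff, Set.mem_ofPred_eq, Set.mem_iUnion]
          obtain ⟨k, hk⟩ := hF t
          rw [hk]
          constructor
          · intro h; exact ⟨k, rfl, h⟩
          · rintro ⟨k', h1, h2⟩
            cases h1
            exact h2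
        rw [this]
        refine MeasurableSet.iUnion fun k => MeasurableSet.inter ?_ ?_
        · exact hfst (MeasurableSet.of_discrete (s := {t : T | F n t = atom k}))
        · have : Measurable (fun p : T × (ℕ → Prop) => p.2 k) :=
            (measurable_pi_apply k).comp measurable_snd
          exact measurableSet_setOfPred.2 this
      · refine ih (γ : Ordinal) hγ (hγ.trans hβ) (F n) ?_
        intro t
        have hpos : 0 < (γ : Ordinal) := pos_iff_ne_zero.2 h0
        rcases hCt : C t with k | f
        · simp only [F, hCt]
          exact hpos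
        · by_cases hr : rk (node f) = (γ : Ordinal)
          · simp only [F, hCt, hr, if_true]
            rw [← hr]; exact rk_lt_node f n
          · simp only [F, hCt, hr, if_false]
            exact hpos

end Pool.RVM
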