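import Mathlib

/-!
Inner products of arbitrary families of vectors, indexed by sets of size at most continuum, are
measurable for the sigma-algebra generated by all rectangles.
-/

open MeasureTheory Set Filter
open scoped RealInnerProductSpace

namespace Pool.RVM

variable {α β : Type*} [MeasurableSpace α] [DiscreteMeasurableSpace α]
  [MeasurableSpace β] [DiscreteMeasurableSpace β]

/-- The set where two arbitrary functions into an arbitrary set agree. -/
theorem measurableSet_eq_of_discrete {ι : Type*} (e : β → ℝ) (he : Function.Injective e)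
    (i : α → ι) (j : β → ι) : MeasurableSet {p : α × β | i p.1 = j p.2} := by
  classical
  rcases isEmpty_or_nonempty β with hβ | hβ
  · have : {p : α × β | i p.1 = j p.2} = ∅ := by
      ext p; exact (IsEmpty.false p.2).elim
    rw [this]; exact MeasurableSet.empty
  · let σ : ι → β := Function.invFun j
    have hσ : ∀ t ∈ Set.range j, j (σ t) = t := fun t ht => Function.invFun_eq ht
    have : {p : α × β | i p.1 = j p.2} =
        {p : α × β | i p.1 ∈ Set.range j} ∩
          {p : α × β | e (σ (i p.1)) = e (σ (j p.2))} := by
      ext p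
      constructor
      · intro h
        have h' : i p.1 = j p.2 := h
        refine ⟨?_, ?_⟩
        · change i p.1 ∈ Set.range j
          rw [h']; exact Set.mem_range_self _
        · change e (σ (i p.1)) = e (σ (j p.2))
          rw [h']
      · rintro ⟨h1, h2⟩
        have h1' : i p.1 ∈ Set.range j := h1
        have h2' : σ (i p.1) = σ (j p.2) := he h2
        change i p.1 = j p.2
        rw [← hσ _ h1', h2', hσ _ (Set.mem_range_self _)]
    rw [this]
    refine MeasurableSet.inter ?_ ?_
    · have h : Measurable (fun p : α × β => p.1) := measurable_fst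
      exact h (MeasurableSet.of_discrete (s := {x : α | i x ∈ Set.range j}))
    · refine measurableSet_eq_fun ?_ ?_
      · exact (Measurable.of_discrete (f := fun x : α => e (σ (i x)))).comp measurable_fst
      · exact (Measurable.of_discrete (f := fun y : β => e (σ (j y)))).comp measurable_snd

variable {H : Type*} [NormedAddCommGroup H] [InnerProductSpace ℝ H]

/-- Every family of vectors has a uniform countable expansion along a Hilbert basis. -/
theorem exists_expansion {ι : Type*} [Nonempty ι] (b : HilbertBasis ι ℝ H) {γ : Type*} (u : γ → H) :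
    ∃ (i : ℕ → γ → ι) (a : ℕ → γ → ℝ), ∀ x h,
      HasSum (fun n => a n x * ⟪b (i n x), h⟫) ⟪u x, h⟫ := by
  classical
  have key : ∀ x : γ, ∃ (i : ℕ → ι) (a : ℕ → ℝ), ∀ h,
      HasSum (fun n => a n * ⟪b (i n), h⟫) ⟪u x, h⟫ := by
    intro x
    let S : Set ι := Function.support (fun i => ⟪u x, b i⟫)
    have hS : S.Countable := by
      have h1 : Summable (fun i => ⟪u x, b i⟫ * ⟪b i, u x⟫) :=
        (b.hasSum_inner_mul_inner (u x) (u x)).summable
      have h2 := h1.countable_support
      refine h2.mono ?_
      intro i hi
      have hi' : ⟪u x, b i⟫ ≠ 0 := hi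
      have : ⟪b i, u x⟫ = ⟪u x, b i⟫ := real_inner_comm _ _
      change ⟪u x, b i⟫ * ⟪b i, u x⟫ ≠ 0
      rw [this]; exact mul_ne_zero hi' hi'
    have : Countable S := hS
    obtain ⟨enc, henc⟩ := exists_injective_nat S
    let i₀ : ι := Classical.arbitrary ι
    refine ⟨Function.extend enc (fun s => (s : ι)) (fun _ => i₀),
      Function.extend enc (fun s => ⟪u x, b s⟫) 0, ?_⟩
    intro h
    have h1 : HasSum (fun i => ⟪u x, b i⟫ * ⟪b i, h⟫) ⟪u x, h⟫ := b.hasSum_inner_mul_inner _ _
    have h2 : HasSum (fun s : S => ⟪u x, b (s : ι)⟫ * ⟪b (s : ι), h⟫) ⟪u x, h⟫ := by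
      refine (hasSum_subtype_iff_of_support_subset (f := fun i => ⟪u x, b i⟫ * ⟪b i, h⟫) ?_).2 h1
      intro i hi
      have hi' : ⟪u x, b i⟫ * ⟪b i, h⟫ ≠ 0 := hi
      exact left_ne_zero_of_mul hi'
    have h3 := (hasSum_extend_zero henc).2 h2
    convert h3 using 1
    funext n
    by_cases hn : ∃ s, enc s = n
    · obtain ⟨s, rfl⟩ := hn
      rw [henc.extend_apply, henc.extend_apply, henc.extend_apply]
    · rw [Function.extend_apply' _ _ _ hn, Function.extend_apply' _ _ _ hn,
        Function.extend_apply' _ _ _ hn]
      simp
  choose i a hia using key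
  exact ⟨fun n x => i x n, fun n x => a x n, fun x h => hia x h⟩

/-- A pointwise countable sum of measurable real functions is measurable. -/
theorem measurable_of_hasSum_nat {γ : Type*} [MeasurableSpace γ] {f : ℕ → γ → ℝ} {g : γ → ℝ}
    (hf : ∀ n, Measurable (f n)) (h : ∀ x, HasSum (fun n => f n x) (g x)) : Measurable g := by
  refine measurable_of_tendsto_metrizable (f := fun n x => ∑ k ∈ Finset.range n, f k x) ?_ ?_
  · intro n
    exact Finset.measurable_fun_sum _ (fun k _ => hf k)
  · rw [tendsto_pi_nhds]
    intro x
    exact (h x).tendsto_sum_nat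

theorem measurable_inner_family [CompleteSpace H] (e : β → ℝ) (he : Function.Injective e)
    (v : α → H) (w : β → H) : Measurable (fun p : α × β => ⟪v p.1, w p.2⟫) := by
  classical
  obtain ⟨s, b, hb⟩ := exists_hilbertBasis ℝ H
  rcases isEmpty_or_nonempty s with hs | hs
  · have : (fun p : α × β => ⟪v p.1, w p.2⟫) = fun _ => 0 := by
      funext p
      have h1 := b.hasSum_inner_mul_inner (v p.1) (w p.2)
      exact h1.unique hasSum_empty
    rw [this]; exact measurable_const
  · obtain ⟨i, a, hia⟩ := exists_expansion b v
    obtain ⟨j, c, hjc⟩ := exists_expansion b w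
    -- inner products of basis vectors
    have hbb : ∀ n m, Measurable (fun p : α × β => ⟪b (i n p.1), b (j m p.2)⟫) := by
      intro n m
      have : (fun p : α × β => ⟪b (i n p.1), b (j m p.2)⟫) =
          Set.indicator {p : α × β | i n p.1 = j m p.2} (fun _ => (1 : ℝ)) := by
        funext p
        have := (orthonormal_iff_ite.1 b.orthonormal) (i n p.1) (j m p.2)
        rw [this]
        by_cases h : i n p.1 = j m p.2
        · rw [if_pos h, Set.indicator_of_mem (by exact h)]
        · rw [if_neg h, Set.indicator_of_notMem (by exact h)]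
      rw [this]
      exact measurable_const.indicator (measurableSet_eq_of_discrete e he _ _)
    have hbw : ∀ n, Measurable (fun p : α × β => ⟪b (i n p.1), w p.2⟫) := by
      intro n
      refine measurable_of_hasSum_nat
        (f := fun m p => c m p.2 * ⟪b (i n p.1), b (j m p.2)⟫) ?_ ?_
      · intro m
        exact ((Measurable.of_discrete (f := c m)).comp measurable_snd).mul (hbb n m)
      · intro p
        have h1 := hjc p.2 (b (i n p.1))
        rw [real_inner_comm]
        convert h1 using 1
        funext m
        rw [real_inner_comm]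
    refine measurable_of_hasSum_nat (f := fun n p => a n p.1 * ⟪b (i n p.1), w p.2⟫) ?_ ?_
    · intro n
      exact ((Measurable.of_discrete (f := a n)).comp measurable_fst).mul (hbw n)
    · intro p
      exact hia p.1 (w p.2)

/-- For arbitrary families of sets in a probability space, the measure of the pairwise
intersections is a measurable function for the sigma-algebra generated by all rectangles. -/
theorem measurable_measure_inter {T : Type*} [MeasurableSpace T] [DiscreteMeasurableSpace T]
    (μ : Measure T) [IsProbabilityMeasure μ] (e : β → ℝ) (he : Function.Injective e)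
    (P : α → Set T) (Q : β → Set T) :
    Measurable (fun p : α × β => μ (P p.1 ∩ Q p.2)) := by
  have hP : ∀ x, MeasurableSet (P x) := fun x => MeasurableSet.of_discrete
  have hQ : ∀ y, MeasurableSet (Q y) := fun y => MeasurableSet.of_discrete
  let v : α → Lp ℝ 2 μ := fun x => indicatorConstLp 2 (hP x) (measure_ne_top μ _) (1 : ℝ)
  let w : β → Lp ℝ 2 μ := fun y => indicatorConstLp 2 (hQ y) (measure_ne_top μ _) (1 : ℝ)
  have h := measurable_inner_family e he v w
  have h2 : (fun p : α × β => μ (P p.1 ∩ Q p.2)) =
      fun p : α × β => ENNReal.ofReal ⟪v p.1, w p.2⟫ := by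
    funext p
    have := L2.real_inner_indicatorConstLp_one_indicatorConstLp_one (μ := μ) (hP p.1) (hQ p.2)
      (measure_ne_top μ _) (measure_ne_top μ _)
    change _ = ENNReal.ofReal ⟪indicatorConstLp 2 (hP p.1) (measure_ne_top μ _) (1 : ℝ),
      indicatorConstLp 2 (hQ p.2) (measure_ne_top μ _) (1 : ℝ)⟫
    rw [this, ofReal_measureReal]
  rw [h2]
  exact h.ennreal_ofReal

end Pool.RVM
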