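import Pool.Agent.RVM.Codes

/-!
Reflection of rectangle-measurability under a total measure.
-/

open MeasureTheory Set Filter Ordinal

namespace Pool.RVM

open BC

/-- The pi-system of cylinders used below. -/
def cyl (T : Type*) : Set (Set (T × (ℕ → Prop))) :=
  {R | ∃ (U : Set T) (F : Finset ℕ), R = {p | p.1 ∈ U ∧ ∀ n ∈ F, p.2 n}}

theorem isPiSystem_cyl (T : Type*) : IsPiSystem (cyl T) := by
  classical
  rintro _ ⟨U, F, rfl⟩ _ ⟨V, G, rfl⟩ _
  refine ⟨U ∩ V, F ∪ G, ?_⟩
  ext p
  simp only [Set.mem_inter_iff, Set.mem_ofPred_eq, Finset.mem_union]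
  constructor
  · rintro ⟨⟨h1, h2⟩, h3, h4⟩
    exact ⟨⟨h1, h3⟩, fun n hn => hn.elim (h2 n) (h4 n)⟩
  · rintro ⟨⟨h1, h3⟩, h⟩
    exact ⟨⟨h1, fun n hn => h n (Or.inl hn)⟩, h3, fun n hn => h n (Or.inr hn)⟩

variable {T : Type*} [MeasurableSpace T] [DiscreteMeasurableSpace T]

theorem generateFrom_cyl :
    (Prod.instMeasurableSpace : MeasurableSpace (T × (ℕ → Prop))) =
      MeasurableSpace.generateFrom (cyl T) := by
  refine le_antisymm ?_ ?_
  · intro s hs
    let m : MeasurableSpace (T × (ℕ → Prop)) := MeasurableSpace.generateFrom (cyl T)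
    have h1 : @Measurable _ _ m _ (fun p : T × (ℕ → Prop) => p.1) := by
      intro U _
      refine MeasurableSpace.measurableSet_generateFrom ⟨U, ∅, ?_⟩
      ext p; simp
    have h2 : @Measurable _ _ m _ (fun p : T × (ℕ → Prop) => p.2) := by
      refine @measurable_pi_lambda _ _ _ m _ _ ?_
      intro n
      refine measurableSet_setOfPred.1 ?_
      refine MeasurableSpace.measurableSet_generateFrom ⟨Set.univ, {n}, ?_⟩
      ext p; simp
    have h3 : @Measurable _ _ m Prod.instMeasurableSpace (fun p : T × (ℕ → Prop) => (p.1, p.2)) :=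
      h1.prodMk h2
    exact h3 hs
  · refine MeasurableSpace.generateFrom_le ?_
    rintro _ ⟨U, F, rfl⟩
    have hfst : Measurable (fun p : T × (ℕ → Prop) => p.1) := measurable_fst
    refine MeasurableSet.inter (hfst (MeasurableSet.of_discrete (s := U))) ?_
    have : {p : T × (ℕ → Prop) | ∀ n ∈ F, p.2 n} = ⋂ n ∈ F, {p | p.2 n} := by
      ext p; simp
    change MeasurableSet {p : T × (ℕ → Prop) | ∀ n ∈ F, p.2 n}
    rw [this]
    refine Finset.measurableSet_biInter F fun n _ => ?_
    have : Measurable (fun p : T × (ℕ → Prop) => p.2 n) :=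
      (measurable_pi_apply n).comp measurable_snd
    exact measurableSet_setOfPred.2 this

variable {α β : Type*} [MeasurableSpace α] [DiscreteMeasurableSpace α]
  [MeasurableSpace β] [DiscreteMeasurableSpace β]

theorem measurable_section (μ : Measure T) [IsProbabilityMeasure μ]
    (e : β → ℝ) (he : Function.Injective e) (A : T → ℕ → Set α) (B : T → ℕ → Set β)
    (E : Set (T × (ℕ → Prop))) (hE : MeasurableSet E) :
    Measurable (fun p : α × β => μ {t | (t, fun n => p.1 ∈ A t n ∧ p.2 ∈ B t n) ∈ E}) := by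
  let g : α × β → T → T × (ℕ → Prop) := fun p t => (t, fun n => p.1 ∈ A t n ∧ p.2 ∈ B t n)
  have hg : ∀ p, Measurable (g p) := fun p => Measurable.of_discrete
  let ν : α × β → Measure (T × (ℕ → Prop)) := fun p => μ.map (g p)
  have hν : ∀ p, IsProbabilityMeasure (ν p) := fun p =>
    Measure.isProbabilityMeasure_map (hg p).aemeasurable
  have hmeas : Measurable ν := by
    refine Measurable.measure_of_isPiSystem_of_isProbabilityMeasure generateFrom_cyl
      (isPiSystem_cyl T) ?_
    rintro _ ⟨U, F, rfl⟩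
    have hR : MeasurableSet {p : T × (ℕ → Prop) | p.1 ∈ U ∧ ∀ n ∈ F, p.2 n} := by
      rw [generateFrom_cyl]
      exact MeasurableSpace.measurableSet_generateFrom ⟨U, F, rfl⟩
    have h := measurable_measure_inter μ e he
      (fun x : α => {t | t ∈ U ∧ ∀ n ∈ F, x ∈ A t n})
      (fun y : β => {t | ∀ n ∈ F, y ∈ B t n})
    convert h using 1
    funext p
    change (μ.map (g p)) _ = _
    rw [Measure.map_apply (hg p) hR]
    congr 1
    ext t
    simp only [Set.mem_preimage, Set.mem_ofPred_eq, Set.mem_inter_iff, g]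
    constructor
    · rintro ⟨h1, h2⟩
      exact ⟨⟨h1, fun n hn => (h2 n hn).1⟩, fun n hn => (h2 n hn).2⟩
    · rintro ⟨⟨h1, h2⟩, h3⟩
      exact ⟨h1, fun n hn => ⟨h2 n hn, h3 n hn⟩⟩
  have h := (Measure.measurable_coe hE).comp hmeas
  convert h using 1
  funext p
  change _ = (μ.map (g p)) E
  rw [Measure.map_apply (hg p) hE]
  rfl

/-- The core of the reflection argument. -/
theorem measurableSet_of_ae_codes (μ : Measure T) [IsProbabilityMeasure μ]
    (hadd : ∀ S : Set.Iio (ω₁ : Ordinal.{0}) → Set T, (∀ i, μ (S i) = 0) → μ (⋃ i, S i) = 0)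
    (e : β → ℝ) (he : Function.Injective e) (W : Set (α × β))
    (A : T → ℕ → Set α) (B : T → ℕ → Set β) (c : T → BC)
    (h : ∀ x y, ∀ᵐ t ∂μ, ((x, y) ∈ W ↔ ev (c t) (fun n => x ∈ A t n ∧ y ∈ B t n))) :
    MeasurableSet W := by
  classical
  -- essentially countably many ranks
  let L : Set.Iio (ω₁ : Ordinal.{0}) → Set T := fun i => {t | rk (c t) = (i : Ordinal)}
  have hL : ∀ i, MeasurableSet (L i) := fun i => MeasurableSet.of_discrete
  have hdisj : Pairwise (Function.onFun Disjoint L) := by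
    intro i j hij
    rw [Function.onFun, Set.disjoint_left]
    intro t h1 h2
    exact hij (Subtype.ext (Eq.trans (Eq.symm h1) h2))
  have hJ : Set.Countable {i | 0 < μ (L i)} :=
    Measure.countable_meas_pos_of_disjoint_iUnion hL hdisj
  let J : Set (Set.Iio ω₁) := {i | 0 < μ (L i)}
  have hJc : Countable J := hJ
  let b : Ordinal.{0} := ⨆ i : J, ((i : Set.Iio ω₁) : Ordinal) + 1
  have hlim : Order.IsSuccLimit (ω₁ : Ordinal.{0}) := by
    rw [← Cardinal.ord_aleph]
    exact Cardinal.isSuccLimit_ord (Cardinal.aleph0_le_aleph 1)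
  have hb : b < ω₁ := Ordinal.iSup_lt_omega_one fun i => hlim.add_one_lt (i : Set.Iio ω₁).2
  have hib : ∀ i : J, ((i : Set.Iio ω₁) : Ordinal) < b := by
    intro i
    have h1 : ((i : Set.Iio ω₁) : Ordinal) + 1 ≤ b :=
      Ordinal.le_iSup (fun i : J => ((i : Set.Iio ω₁) : Ordinal) + 1) i
    exact lt_of_lt_of_le (lt_add_one _) h1
  have hb1 : b + 1 < ω₁ := hlim.add_one_lt hb
  -- the null set of bad indices
  let N : Set T := {t | b ≤ rk (c t)}
  have hN : μ N = 0 := by
    have hsub : N ⊆ ⋃ i : Set.Iio ω₁, (if i ∈ J then ∅ else L i) := by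
      intro t ht
      have ht' : b ≤ rk (c t) := ht
      refine Set.mem_iUnion.2 ⟨⟨rk (c t), rk_lt_omega_one _⟩, ?_⟩
      rw [if_neg]
      · rfl
      · intro hj
        have := hib ⟨_, hj⟩
        exact absurd this (not_lt.2 ht')
    refine measure_mono_null hsub (hadd _ ?_)
    intro i
    by_cases hi : i ∈ J
    · simp [hi]
    · rw [if_neg hi]
      have : ¬ 0 < μ (L i) := hi
      exact le_antisymm (not_lt.1 this) (zero_le)
  let c' : T → BC := fun t => if rk (c t) < b then c t else atom 0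
  have hc' : ∀ t, rk (c' t) < b + 1 := by
    intro t
    by_cases ht : rk (c t) < b
    · simp only [c', ht, if_true]; exact ht.trans (lt_add_one _)
    · simp only [c', ht, if_false]
      have : rk (atom 0) = 0 := rfl
      rw [this]
      exact lt_of_le_of_lt zero_le (lt_add_one b)
  let E : Set (T × (ℕ → Prop)) := {p | ev (c' p.1) p.2}
  have hE : MeasurableSet E := measurableSet_ev (b + 1) hb1 c' hc'
  have hΦ := measurable_section (α := α) (β := β) μ e he A B E hE
  have hW : W = (fun p : α × β => μ {t | (t, fun n => p.1 ∈ A t n ∧ p.2 ∈ B t n) ∈ E}) ⁻¹' {1} := by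
    ext ⟨x, y⟩
    have hae : ∀ᵐ t ∂μ, ((x, y) ∈ W ↔
        t ∈ {t | (t, fun n => x ∈ A t n ∧ y ∈ B t n) ∈ E}) := by
      have hN' : ∀ᵐ t ∂μ, t ∉ N := measure_eq_zero_iff_ae_notMem.1 hN
      filter_upwards [h x y, hN'] with t ht htN
      have h1 : rk (c t) < b := not_le.1 htN
      rw [ht]
      change _ ↔ ev (c' t) _
      simp only [c', h1, if_true]
    simp only [Set.mem_preimage, Set.mem_singleton_iff]
    constructor
    · intro hxy
      rw [← measure_univ (μ := μ)]
      refine measure_congr ?_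
      filter_upwards [hae] with t ht
      exact propext ⟨fun _ => trivial, fun _ => ht.1 hxy⟩
    · intro h1
      by_contra hxy
      have h0 : μ {t | (t, fun n => x ∈ A t n ∧ y ∈ B t n) ∈ E} = 0 := by
        rw [measure_eq_zero_iff_ae_notMem]
        filter_upwards [hae] with t ht hmem
        exact hxy (ht.2 hmem)
      rw [h0] at h1
      exact zero_ne_one h1
  rw [hW]
  exact hΦ (measurableSet_singleton 1)

end Pool.RVM
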